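import Pool.Agent.W805.ER.Bridge

set_option autoImplicit false

open Pool.Agent.W805.DampedWave

namespace Pool.Agent.Results.MP_d893f8_an.ExactRateOneOverT

/-- The damped wave equation on the flat 2-torus is well posed for every damping function, and there
is a damping function `b(x) = β(x₀)` depending on the first variable only, with `β > 0` off the
point `0` (so `b > 0` off the closed geodesic `x₀ = 0`), for which the decay rate is exactly `1/t`:
the system is stable at rate `1/t`, but is not stable at any rate `f` with `t f(t) → 0`. -/
theorem result :
    (∀ b : Torus → ℝ, IsDamping b → WellPosed b) ∧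
    ∃ β : UnitAddCircle → ℝ, (∀ x, x ≠ 0 → 0 < β x) ∧ (∀ x, β x ≤ 1) ∧
      IsDamping (fun x : Torus => β (x 0)) ∧ DecayExactlyOneOverT (fun x : Torus => β (x 0)) :=
  exists_exact_rate

end Pool.Agent.Results.MP_d893f8_an.ExactRateOneOverT
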